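import Pool.Agent.Lib.MP_e6fef2_lc.V.Iface
import Pool.Agent.Lib.MP_100a6c_lc.H68.Ord

/-!
# V_OM1: `ω₁` of the ground universe is `ω₁` of `V^B`
-/

universe u

open Cardinal

open scoped symmDiff

namespace Pool.Agent.Lib.MP_e6fef2_lc.H21

open Pool.Agent.Lib.MP_100a6c_lc
open Pool.Agent.Lib.MP_c5d73d_lc.F (isOm isPow isPreo comp isDense isFilt ZFC)
open BName
open H36 (om)

/-- `ω₁` as an ordinal. -/
noncomputable def o1 : Ordinal.{u} := (Cardinal.aleph.{u} 1).ord

/-- The ordinal of an element of `W`. -/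
noncomputable def ow (ξ : W.{u}) : Ordinal.{u} := (Ordinal.ToType.mk.symm ξ).1

theorem ow_lt (ξ : W.{u}) : ow ξ < o1 := (Ordinal.ToType.mk.symm ξ).2

theorem exists_ow {a : Ordinal.{u}} (h : a < o1) : ∃ ξ : W.{u}, ow ξ = a :=
  ⟨Ordinal.ToType.mk ⟨a, h⟩, by simp [ow]⟩

theorem ow_lt_ow {ξ η : W.{u}} : ow ξ < ow η ↔ ξ < η := by
  rw [ow, ow, Subtype.coe_lt_coe, OrderIso.lt_iff_lt]

theorem ow_inj {ξ η : W.{u}} (h : ow ξ = ow η) : ξ = η :=
  Ordinal.ToType.mk.symm.injective (Subtype.ext h)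

variable {B : Type u} [CompleteBooleanAlgebra B]

theorem om_eq : (om : ZFSet.{u}) = ((ℵ₀ : Cardinal.{u}).ord).toZFSet := by
  rw [Cardinal.ord_aleph0]; rfl

/-- `om1` is not countable. -/
theorem leCard_om1 (hC : CCV B) : (VB B).leCard (check om1) (check om) = ⊥ := by
  by_contra hne
  set Γ := (VB B).leCard (check om1) (check om) with hΓ
  obtain ⟨t, ht⟩ := exists_enum_type (B := B) (c := ℵ₀) (K := ULift.{u} ℕ) (Γ := Γ)
    (x := check om1) (by simp) (by rw [hΓ, om_eq])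
  -- the function of the proof
  set f : ℕ → W.{u} → B := fun n ξ =>
    beq (t ⟨n⟩) (wn ξ) ⊔ (⨆ η : W.{u}, beq (t ⟨n⟩) (wn η))ᶜ with hf
  have h1 : ∀ n, ⨆ ξ, f n ξ = ⊤ := by
    intro n
    rw [eq_top_iff, ← sup_compl_eq_top (x := ⨆ η : W.{u}, beq (t ⟨n⟩) (wn η))]
    refine sup_le (iSup_mono fun ξ => le_sup_left) ?_
    obtain ⟨ξ, -⟩ := exists_ow.{u} (a := 0) (by
      rw [o1]
      exact (Cardinal.ord_pos).2 (Cardinal.aleph_pos 1))
    exact le_iSup_of_le ξ le_sup_right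
  have h2 := hC W f h1
  have h3 : Γ ≤ ⨆ Y : {Y : Set W.{u} // Y.Countable}, Γ ⊓ ⨅ n, ⨆ x : Y.1, f n x := by
    rw [← inf_iSup_eq, h2, inf_top_eq]
  obtain ⟨Y, hY⟩ : ∃ Y : {Y : Set W.{u} // Y.Countable}, Γ ⊓ ⨅ n, ⨆ x : Y.1, f n x ≠ ⊥ := by
    by_contra hcon
    push Not at hcon
    apply hne
    rw [← le_bot_iff]
    exact h3.trans (iSup_le fun Y => (hcon Y).le)
  obtain ⟨η, hη⟩ : ∃ η : W.{u}, η ∉ Y.1 := by
    by_contra hcon
    push Not at hcon
    have h4 : (Set.univ : Set W.{u}).Countable := Y.2.mono fun x _ => hcon x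
    have h5 : #W.{u} ≤ ℵ₀ := Cardinal.mk_le_aleph0_iff.2 (Set.countable_univ_iff.1 h4)
    rw [mk_ord_toType] at h5
    exact absurd h5 (not_le.2 Cardinal.aleph0_lt_aleph_one)
  apply hY
  rw [← le_bot_iff]
  have h6 : Γ ≤ ⨆ y : ULift.{u} ℕ, beq (wn η) (t y) := by
    have h7 := ht (wn η)
    have h10 : bmem (wn η : BName B) (check om1) = ⊤ :=
      mem_check_of_mem (Ordinal.toZFSet_mem_toZFSet_iff.2 (ow_lt η))
    rw [h10, inf_top_eq] at h7
    exact h7
  have h8 : Γ ⊓ (⨅ n, ⨆ x : Y.1, f n x) ≤ ⨆ y : ULift.{u} ℕ,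
      beq (wn η) (t y) ⊓ ⨆ x : Y.1, f y.down x := by
    refine (inf_le_inf_right _ h6).trans ?_
    rw [iSup_inf_eq]
    exact iSup_mono fun y => inf_le_inf_left _ (iInf_le _ y.down)
  refine h8.trans (iSup_le fun y => ?_)
  rw [inf_iSup_eq]
  refine iSup_le fun x => ?_
  rw [hf, inf_sup_left]
  refine sup_le ?_ ?_
  · have hne' : η ≠ x.1 := fun h => hη (h ▸ x.2)
    have h9 : beq (wn η : BName B) (wn x.1) = ⊥ := beq_check_of_ne fun h =>
      hne' (ow_inj (Ordinal.toZFSet_injective h))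
    rw [← h9]
    exact (ext_eq_right (wn η)).of_le (x := t y) inf_le_right inf_le_left
  · have h9 : beq (wn η : BName B) (t y) ≤ ⨆ η : W.{u}, beq (t y) (wn η) := by
      rw [beq_symm]
      exact le_iSup (fun η : W.{u} => beq (t y) (wn η)) η
    exact (inf_le_inf_right _ h9).trans (inf_compl_self _).le

theorem leCard_of_lt {a : Ordinal.{u}} (h : a < o1) :
    (VB B).leCard (check a.toZFSet) (check om) = ⊤ := by
  rw [leCard_check]
  rw [H77.leCard_iff, om_eq, Ordinal.card_toZFSet, Ordinal.card_toZFSet, Cardinal.card_ord]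
  have := Cardinal.lt_ord.1 h
  rw [← Cardinal.succ_aleph0] at this
  exact Order.le_of_lt_succ this

/-- V_OM1. -/
theorem v_om1 : VOm1Statement.{u} := by
  intro B _ hC
  have h2 := leCard_om1 hC
  refine ⟨?_, ?_, ?_, ?_, ?_⟩
  · have h1 : (VB B).isOrd (check om1) = ⊤ := isOrd_check (ZFSet.isOrdinal_toZFSet _)
    have h3 : (⨅ ξ, (VB B).mem ξ (check om1) ⇨ (VB B).leCard ξ (check om)) = ⊤ := by
      rw [iInf_VBcheck (ext_leCard_left _)]
      refine eq_top_iff.2 (le_iInf fun x => le_iInf fun hx => ?_)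
      obtain ⟨a, ha, rfl⟩ := Ordinal.mem_toZFSet_iff.1 hx
      rw [leCard_of_lt ha]
    rw [Str.isSucc, h1, h2, h3]
    simp
  · intro o
    have e5 : (VB B).isSucc o (check om) ≤ ⨆ α : Ordinal.{u}, beq o (H68.co α) :=
      (inf_le_left.trans inf_le_left).trans (H68.ord1 o)
    refine (le_inf le_rfl e5).trans ?_
    rw [inf_iSup_eq]
    refine iSup_le fun α => ?_
    set Δ : B := (VB B).isSucc o (check om) ⊓ beq o (H68.co α) with hΔ
    have d1 : Δ ≤ (VB B).isSucc (H68.co α) (check om) :=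
      (ext_isSucc_left (check om)).of_le inf_le_right inf_le_left
    rcases lt_trichotomy α o1.{u} with hα | hα | hα
    · have h4 : Δ ≤ ((VB B).leCard (H68.co α) (check om))ᶜ :=
        d1.trans (inf_le_left.trans inf_le_right)
      have h5 : (VB B).leCard (H68.co α) (check om) = ⊤ := leCard_of_lt hα
      rw [h5, compl_top] at h4
      exact h4.trans bot_le
    · have h4 : (H68.co α : BName B) = check om1 := by rw [hα]; rfl
      rw [← h4]
      exact inf_le_right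
    · have h1 : Δ ≤ (VB B).leCard (check om1) (check om) := by
        refine iInf_himp_apply (φ := fun ξ => (VB B).mem ξ (H68.co α))
          (ψ := fun ξ => (VB B).leCard ξ (check om)) (d1.trans inf_le_right) (check om1) le_rfl ?_
        change Δ ≤ bmem (check om1) (H68.co α)
        have h3 : bmem (check om1 : BName B) (H68.co α) = ⊤ := H68.mem_co_co hα
        rw [h3]
        exact le_top
      rw [h2] at h1
      exact h1.trans bot_le
  · intro y
    rw [mem_check]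
    refine le_antisymm (iSup_le fun x => iSup_le fun hx => ?_) (iSup_le fun ξ => ?_)
    · obtain ⟨a, ha, rfl⟩ := Ordinal.mem_toZFSet_iff.1 hx
      obtain ⟨ξ, rfl⟩ := exists_ow ha
      exact le_iSup (fun ξ : W.{u} => beq y (wn ξ)) ξ
    · exact le_iSup_of_le (ow ξ).toZFSet
        (le_iSup_of_le (Ordinal.toZFSet_mem_toZFSet_iff.2 (ow_lt ξ)) le_rfl)
  · intro ξ η
    by_cases h : ξ < η
    · rw [iSup_pos h]
      exact mem_check_of_mem (Ordinal.toZFSet_mem_toZFSet_iff.2 (ow_lt_ow.2 h))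
    · rw [iSup_neg h]
      exact mem_check_of_not_mem fun h' => h (ow_lt_ow.1 (Ordinal.toZFSet_mem_toZFSet_iff.1 h'))
  · intro ξ η
    by_cases h : ξ = η
    · subst h
      rw [iSup_pos rfl, beq_refl]
    · rw [iSup_neg h]
      exact beq_check_of_ne fun h' => h (ow_inj (Ordinal.toZFSet_injective h'))

end Pool.Agent.Lib.MP_e6fef2_lc.H21
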